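import Mathlib
import Pool.Agent.QProd.FTypeDef
import Pool.Agent.QProd.QDef
import Pool.Agent.QProd.Bridge

set_option autoImplicit false

namespace Pool.Agent.Results.MP_c78901_al.FiniteType

open Pool.Agent.QProd

universe u

/-- A quandle product of finitely many groups of type `F_n` is of type `F_n` (with or without trivial
holonomy). -/
theorem result {𝕊 : Type u} (Q : QuandleSystem 𝕊) (hfin : Q.P.Finite) (n : ℕ)
    (hF : ∀ S : Q.P, Pool.Agent.FType.TypeF n (Q.Factor S)) :
    Pool.Agent.FType.TypeF n Q.Product :=
  Pool.Agent.FType.typeF_product Q hfin n hF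

end Pool.Agent.Results.MP_c78901_al.FiniteType
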